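import Pool.Agent.V1112.HB.IForm

/-! There is a vertex operator algebra over `ℚ` (the rank one Heisenberg VOA) with an integral
form on which the natural bilinear form has unbounded denominators.

Vertex operator algebras over `ℚ` are the structure `Pool.Agent.V1112.HV.VOA` of
`Pool/Agent/V1112/HV/Defs.lean`; there `A.Y a n` is the mode `a_n`, `A.one` the vacuum, `A.omega`
the conformal vector, and `A.wt k` the eigenspace of `L(0) = omega_1` for the eigenvalue `k`. -/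

set_option autoImplicit false

namespace Pool.Agent.Results.MP_8ba02c_al.UnboundedIntegralForm

open Pool.Agent.V1112.HV

/-- `B` is a nondegenerate invariant symmetric bilinear form on the VOA, with `B(1,1) = 1`.
Invariance (Frenkel, Huang, Lepowsky) is
`(Y(a,z)b, c) = (b, Y(e^(z L(1)) (-z^(-2))^(L(0)) a, z^(-1)) c)`; for `a` of weight `k` its
coefficient of `z^(-n-1)` is the formula `invariant`, in which `L(1) = omega_2`. -/
structure IsNaturalForm {V : Type} [AddCommGroup V] [Module ℚ V] (A : VOA V)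
    (B : V →ₗ[ℚ] V →ₗ[ℚ] ℚ) : Prop where
  symmetric : ∀ a b : V, B a b = B b a
  nondegenerate : ∀ a : V, (∀ b : V, B a b = 0) → a = 0
  normalised : B A.one A.one = 1
  invariant : ∀ (k : ℤ) (a : V), a ∈ A.wt k → ∀ (n : ℤ) (b c : V),
    B (A.Y a n b) c = (-1 : ℚ) ^ k * ∑ᶠ i : ℕ, (1 / (i.factorial : ℚ)) *
      B b (A.Y ((A.Y A.omega 2 ^ i) a) (2 * k - n - i - 2) c)

/-- `J` is an integral form: the `ℤ`-span of a `ℚ`-basis of `V`, closed under all products
`a_n b`, which contains a positive integer multiple of the vacuum and of the conformal vector. -/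
structure IsIntegralForm {V : Type} [AddCommGroup V] [Module ℚ V] (A : VOA V)
    (J : AddSubgroup V) : Prop where
  basis : ∃ (I : Type) (b : Module.Basis I ℚ V), J = AddSubgroup.closure (Set.range b)
  closed : ∀ a ∈ J, ∀ b ∈ J, ∀ n : ℤ, A.Y a n b ∈ J
  vacuum : ∃ p : ℕ, 0 < p ∧ (p : ℚ) • A.one ∈ J
  conformal : ∃ q : ℕ, 0 < q ∧ (q : ℚ) • A.omega ∈ J

theorem result : ∃ (V : Type) (_ : AddCommGroup V) (_ : Module ℚ V) (A : VOA V)
    (B : V →ₗ[ℚ] V →ₗ[ℚ] ℚ) (J : AddSubgroup V),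
    IsNaturalForm A B ∧ IsIntegralForm A J ∧ A.one ∈ J ∧
      ∀ m : ℕ, 0 < m → ∃ a ∈ J, ∃ b ∈ J, ¬ ∃ z : ℤ, (m : ℚ) * B a b = z := by
  obtain ⟨A, hA, hom⟩ := Pool.Agent.V1112.HB.voa
  refine ⟨Pool.Agent.V1112.HB.PP, inferInstance, inferInstance, A, Pool.Agent.V1112.HB.BB,
    Pool.Agent.V1112.HB.JJ, ⟨?_, ?_, ?_, ?_⟩, ⟨?_, ?_, ?_, ?_⟩, ?_, ?_⟩
  · exact Pool.Agent.V1112.HB.BB_symm
  · exact Pool.Agent.V1112.HB.BB_nondeg
  · rw [hA.1]
    exact Pool.Agent.V1112.HB.BB_one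
  · intro k a ha n b c
    rw [hom]
    refine Pool.Agent.V1112.HB.BB_inv A.toVertexAlgebra hA k a ?_ n b c
    have h1 : A.Y A.omega 1 a - (k : ℚ) • a = 0 := ha
    rw [hom, Pool.Agent.V1112.HB.om_one A.toVertexAlgebra hA] at h1
    exact sub_eq_zero.1 h1
  · exact ⟨_, Pool.Agent.V1112.HB.bet, rfl⟩
  · intro a ha b hb n
    exact Pool.Agent.V1112.HB.JJ_closed A.toVertexAlgebra hA a ha n b hb
  · refine ⟨1, one_pos, ?_⟩
    rw [hA.1, Nat.cast_one, one_smul]
    exact Pool.Agent.V1112.HB.one_mem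
  · refine ⟨2, two_pos, ?_⟩
    rw [hom]
    exact Pool.Agent.V1112.HB.two_om_mem
  · rw [hA.1]
    exact Pool.Agent.V1112.HB.one_mem
  · exact Pool.Agent.V1112.HB.unb

end Pool.Agent.Results.MP_8ba02c_al.UnboundedIntegralForm
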